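import Pool.Agent.TH703.HU.Stm

/-!
# Project HU, piece C5: the isoperimetric inequality in the disc of radius 3/5 around the vertex 1
-/

set_option autoImplicit false

open MeasureTheory Set Metric Filter Topology
open scoped ENNReal Real

noncomputable section

namespace Pool.Agent.TH616.HU

open Pool.Agent.TH304.MI Pool.Agent.TH703.HU

lemma meas_mk (y : ℝ) : Measurable (fun t : ℝ => (⟨t, y⟩ : ℂ)) := by
  have : (fun t : ℝ => (⟨t, y⟩ : ℂ)) = fun t => Complex.measurableEquivRealProd.symm (t, y) := rfl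
  rw [this]
  exact Complex.measurableEquivRealProd.symm.measurable.comp (by fun_prop)

lemma meas_mk' (x : ℝ) : Measurable (fun t : ℝ => (⟨x, t⟩ : ℂ)) := by
  have : (fun t : ℝ => (⟨x, t⟩ : ℂ)) = fun t => Complex.measurableEquivRealProd.symm (x, t) := rfl
  rw [this]
  exact Complex.measurableEquivRealProd.symm.measurable.comp (by fun_prop)

lemma cont_mk (y : ℝ) : Continuous (fun t : ℝ => (⟨t, y⟩ : ℂ)) := by
  have : (fun t : ℝ => (⟨t, y⟩ : ℂ)) = fun t => Complex.equivRealProdCLM.symm (t, y) := by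
    ext t
    apply Complex.ext <;> simp
  rw [this]
  exact Complex.equivRealProdCLM.symm.continuous.comp (by fun_prop)

lemma lint_h (f : ℂ → ℝ≥0∞) (hf : Measurable f) :
    ∫⁻ z, f z = ∫⁻ y : ℝ, ∫⁻ t : ℝ, f ⟨t, y⟩ := by
  have h := Complex.volume_preserving_equiv_real_prod.symm
  rw [← h.lintegral_comp hf, Measure.volume_eq_prod]
  exact lintegral_prod_symm _
    (hf.comp Complex.measurableEquivRealProd.symm.measurable).aemeasurable

lemma lint_v (f : ℂ → ℝ≥0∞) (hf : Measurable f) :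
    ∫⁻ z, f z = ∫⁻ x : ℝ, ∫⁻ t : ℝ, f ⟨x, t⟩ := by
  have h := Complex.volume_preserving_equiv_real_prod.symm
  rw [← h.lintegral_comp hf, Measure.volume_eq_prod]
  exact lintegral_prod _
    (hf.comp Complex.measurableEquivRealProd.symm.measurable).aemeasurable

lemma meas_h (f : ℂ → ℝ≥0∞) (hf : Measurable f) :
    Measurable (fun y : ℝ => ∫⁻ t : ℝ, f ⟨t, y⟩) := by
  have h : Measurable (fun p : ℝ × ℝ => f (Complex.measurableEquivRealProd.symm p)) :=
    hf.comp Complex.measurableEquivRealProd.symm.measurable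
  exact h.lintegral_prod_left'

lemma meas_v (f : ℂ → ℝ≥0∞) (hf : Measurable f) :
    Measurable (fun x : ℝ => ∫⁻ t : ℝ, f ⟨x, t⟩) := by
  have h : Measurable (fun p : ℝ × ℝ => f (Complex.measurableEquivRealProd.symm p)) :=
    hf.comp Complex.measurableEquivRealProd.symm.measurable
  exact h.lintegral_prod_right'

/-- One line: the tail. -/
lemma tail_line (c3 : S_C3) (g : ℝ → ℝ) (S : Set ℝ) (κ η : ℝ) (hg : Continuous g)
    (hg0 : ∀ t, 0 ≤ g t) (hanti : ∀ s t, 0 ≤ s → s ≤ t → g t ≤ g s) (hS : MeasurableSet S)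
    (hS2 : S ⊆ Ioi (2 / 5)) (hκ : 0 ≤ κ) (hint : Integrable g)
    (htail : ∀ a : ℝ, 1 / 2 ≤ a → ∫ t in Ioi a, g t ≤ κ * g a) :
    ∫⁻ t in S ∩ Ici (1 / 2), ENNReal.ofReal (g t) ≤
      ENNReal.ofReal κ * (ev (fun t => max 0 (g t - η)) S + ENNReal.ofReal η) := by
  by_cases h0 : volume S = 0
  · have : volume (S ∩ Ici (1 / 2)) = 0 := measure_mono_null inter_subset_left h0
    rw [setLIntegral_measure_zero _ _ this]
    exact bot_le
  set B : Set ℝ := {t | 0 < volume (S ∩ Iio t)} with hB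
  have hBmem : ∀ t ∈ B, 2 / 5 < t := by
    intro t ht
    by_contra hcon
    push Not at hcon
    have : S ∩ Iio t = ∅ := by
      ext s
      simp only [mem_inter_iff, mem_Iio, mem_empty_iff_false, iff_false, not_and, not_lt]
      intro hs
      exact hcon.trans (le_of_lt (hS2 hs))
    rw [hB, mem_ofPred_eq, this, measure_empty] at ht
    exact lt_irrefl _ ht
  have hBup : ∀ t ∈ B, ∀ s, t ≤ s → s ∈ B := by
    intro t ht s hts
    exact lt_of_lt_of_le ht (measure_mono (inter_subset_inter_right _ (Iio_subset_Iio hts)))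
  have hBne : B.Nonempty := by
    by_contra hcon
    rw [not_nonempty_iff_eq_empty] at hcon
    apply h0
    have hU : S = ⋃ n : ℕ, S ∩ Iio (n : ℝ) := by
      rw [← inter_iUnion]
      have : (⋃ n : ℕ, Iio (n : ℝ)) = univ := by
        ext x
        simp only [mem_iUnion, mem_Iio, mem_univ, iff_true]
        exact exists_nat_gt x
      rw [this, inter_univ]
    rw [hU, measure_iUnion_null_iff]
    intro n
    by_contra hn
    have : (n : ℝ) ∈ B := pos_iff_ne_zero.mpr hn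
    rw [hcon] at this
    exact this
  have hBbd : BddBelow B := ⟨2 / 5, fun t ht => (hBmem t ht).le⟩
  set β := sInf B with hβ
  -- the part before β is null
  have hnull : volume (S ∩ Iio β) = 0 := by
    have hU : S ∩ Iio β = ⋃ n : ℕ, S ∩ Iio (β - 1 / ((n : ℝ) + 1)) := by
      rw [← inter_iUnion]
      congr 1
      ext x
      simp only [mem_iUnion, mem_Iio]
      constructor
      · intro hx
        obtain ⟨n, hn⟩ := exists_nat_one_div_lt (sub_pos.mpr hx)
        exact ⟨n, by linarith⟩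
      · rintro ⟨n, hn⟩
        have : (0 : ℝ) < 1 / ((n : ℝ) + 1) := by positivity
        linarith
    rw [hU, measure_iUnion_null_iff]
    intro n
    by_contra hn
    have : (β - 1 / ((n : ℝ) + 1)) ∈ B := pos_iff_ne_zero.mpr hn
    have h2 := csInf_le hBbd this
    have : (0 : ℝ) < 1 / ((n : ℝ) + 1) := by positivity
    rw [← hβ] at h2
    linarith
  -- the bound on ev
  have hev : ∀ t ∈ B, ENNReal.ofReal (g t - η) ≤ ev (fun t => max 0 (g t - η)) S := by
    intro t ht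
    have ht2 := hBmem t ht
    have h3 := (c3 (fun t => max 0 (g t - η)) S (by fun_prop) (fun t => le_max_left _ _) hS).1
      (3 / 10) t (max 0 (g t - η)) (by linarith) (le_max_left _ _) ?_ ?_ ?_
    · exact (ENNReal.ofReal_le_ofReal (le_max_right _ _)).trans h3
    · intro s hs
      apply max_le_max le_rfl
      have := hanti s t (by linarith [hs.1]) hs.2.le
      linarith
    · have : S ∩ Ioo (3 / 10) t = S ∩ Iio t := by
        ext s
        simp only [mem_inter_iff, mem_Ioo, mem_Iio]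
        constructor
        · rintro ⟨h1, h2, h3⟩
          exact ⟨h1, h3⟩
        · rintro ⟨h1, h3⟩
          have := hS2 h1
          rw [mem_Ioi] at this
          exact ⟨h1, by linarith, h3⟩
      rw [this]
      exact ht
    · have hsub : Ioo (3 / 10 : ℝ) (2 / 5) ⊆ Ioo (3 / 10) t \ S := by
        intro s hs
        refine ⟨⟨hs.1, hs.2.trans ht2⟩, fun hsS => ?_⟩
        have := hS2 hsS
        rw [mem_Ioi] at this
        linarith [hs.2]
      refine lt_of_lt_of_le ?_ (measure_mono hsub)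
      rw [Real.volume_Ioo]
      norm_num
  set a := max β (1 / 2) with ha
  have hga : ENNReal.ofReal (g a - η) ≤ ev (fun t => max 0 (g t - η)) S := by
    have hlim : Tendsto (fun t => ENNReal.ofReal (g t - η)) (𝓝[>] a)
        (𝓝 (ENNReal.ofReal (g a - η))) := by
      have hc : Continuous fun t => ENNReal.ofReal (g t - η) :=
        ENNReal.continuous_ofReal.comp (hg.sub continuous_const)
      exact (hc.tendsto a).mono_left nhdsWithin_le_nhds
    refine le_of_tendsto hlim ?_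
    filter_upwards [self_mem_nhdsWithin] with t ht
    have hβt : sInf B < t := lt_of_le_of_lt (le_max_left _ _) ht
    obtain ⟨b, hb, hbt⟩ := exists_lt_of_csInf_lt hBne hβt
    exact hev t (hBup b hb t hbt.le)
  have hga2 : ENNReal.ofReal (g a) ≤ ev (fun t => max 0 (g t - η)) S + ENNReal.ofReal η := by
    calc ENNReal.ofReal (g a) = ENNReal.ofReal ((g a - η) + η) := by ring_nf
      _ ≤ ENNReal.ofReal (g a - η) + ENNReal.ofReal η := ENNReal.ofReal_add_le
      _ ≤ _ := by gcongr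
  calc ∫⁻ t in S ∩ Ici (1 / 2), ENNReal.ofReal (g t)
      ≤ ∫⁻ t in (S ∩ Iio β) ∪ Ici a, ENNReal.ofReal (g t) := by
        apply lintegral_mono_set
        intro t ht
        by_cases htb : t < β
        · exact Or.inl ⟨ht.1, htb⟩
        · right
          rw [mem_Ici, ha]
          exact max_le (not_lt.mp htb) ht.2
    _ ≤ (∫⁻ t in S ∩ Iio β, ENNReal.ofReal (g t)) + ∫⁻ t in Ici a, ENNReal.ofReal (g t) :=
        lintegral_union_le _ _ _
    _ = ∫⁻ t in Ioi a, ENNReal.ofReal (g t) := by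
        rw [setLIntegral_measure_zero _ _ hnull, zero_add, setLIntegral_congr Ioi_ae_eq_Ici.symm]
    _ = ENNReal.ofReal (∫ t in Ioi a, g t) := by
        rw [ofReal_integral_eq_lintegral_ofReal hint.integrableOn
          (Eventually.of_forall fun t => hg0 t)]
    _ ≤ ENNReal.ofReal (κ * g a) := ENNReal.ofReal_le_ofReal (htail a (le_max_right _ _))
    _ = ENNReal.ofReal κ * ENNReal.ofReal (g a) := ENNReal.ofReal_mul hκ
    _ ≤ _ := by gcongr



lemma ball_sq {z : ℂ} (hz : z ∈ ball (1 : ℂ) (3 / 5)) : (z.re - 1) ^ 2 + z.im ^ 2 < 9 / 25 := by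
  rw [mem_ball, Complex.dist_eq] at hz
  have h := Complex.sq_norm (z - 1)
  rw [Complex.normSq_apply] at h
  simp only [Complex.sub_re, Complex.one_re, Complex.sub_im, Complex.one_im, sub_zero] at h
  have h0 := norm_nonneg (z - 1)
  nlinarith

lemma geo1 {z : ℂ} (hz : z ∈ ball (1 : ℂ) (3 / 5)) : 2 / 5 < z.re := by
  have h := ball_sq hz
  nlinarith [sq_nonneg z.im]

lemma geo2 {z : ℂ} (hz : z ∈ ball (1 : ℂ) (3 / 5)) (hD : z ∈ DD) : |z.im| ≤ 9 / 20 := by
  have h := ball_sq hz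
  have h1 := geo1 hz
  have hD' : |z.re| + |z.im| < 1 := hD
  rw [abs_of_pos (by linarith : 0 < z.re)] at hD'
  by_contra hcon
  push Not at hcon
  have h2 : z.im ^ 2 = |z.im| ^ 2 := (sq_abs _).symm
  rw [h2] at h
  nlinarith

lemma geo3 {z : ℂ} (hz : z ∈ ball (1 : ℂ) (3 / 5)) (hr : z.re < 1 / 2) : |z.im| < 17 / 50 := by
  have h := ball_sq hz
  have h2 : z.im ^ 2 = |z.im| ^ 2 := (sq_abs _).symm
  rw [h2] at h
  by_contra hcon
  push Not at hcon
  nlinarith

/-- The tail. -/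
lemma tail_plane (c3 : S_C3) (w : ℂ → ℝ) (G : Set ℂ) (κ η : ℝ) (hw : Continuous w)
    (hw0 : ∀ x, 0 ≤ w x) (hwD : ∀ x, x ∉ DD → w x = 0)
    (hanti : ∀ a a' b : ℝ, 0 ≤ a → a ≤ a' → w ⟨a', b⟩ ≤ w ⟨a, b⟩)
    (hG : MeasurableSet G) (hGb : G ⊆ ball 1 (3 / 5)) (hκ : 0 ≤ κ) (hη : 0 ≤ η)
    (htail : ∀ a b : ℝ, 1 / 2 ≤ a → |b| ≤ 9 / 20 → ∫ t in Ioi a, w ⟨t, b⟩ ≤ κ * w ⟨a, b⟩) :
    ∫⁻ z in G ∩ {z | 1 / 2 ≤ z.re}, ENNReal.ofReal (w z) ≤
      ENNReal.ofReal κ * ((∫⁻ y : ℝ, ev (fun t => max 0 (w ⟨t, y⟩ - η)) {t | (⟨t, y⟩ : ℂ) ∈ G}) +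
        ENNReal.ofReal (9 / 10 * η)) := by
  have hmre : MeasurableSet {z : ℂ | 1 / 2 ≤ z.re} :=
    measurableSet_le measurable_const Complex.measurable_re
  have hmw : Measurable fun z => ENNReal.ofReal (w z) := hw.measurable.ennreal_ofReal
  rw [← lintegral_indicator (hG.inter hmre), lint_h _ (hmw.indicator (hG.inter hmre))]
  have hline : ∀ y : ℝ, ∫⁻ t : ℝ, (G ∩ {z | 1 / 2 ≤ z.re}).indicator
      (fun z => ENNReal.ofReal (w z)) ⟨t, y⟩ ≤ ENNReal.ofReal κ *
      (ev (fun t => max 0 (w ⟨t, y⟩ - η)) {t | (⟨t, y⟩ : ℂ) ∈ G} +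
        (Icc (-(9 / 20)) (9 / 20 : ℝ)).indicator (fun _ => ENNReal.ofReal η) y) := by
    intro y
    by_cases hy : |y| ≤ 9 / 20
    · have hyI : y ∈ Icc (-(9 / 20)) (9 / 20 : ℝ) := by
        rw [mem_Icc]
        exact abs_le.mp hy
      have hSm : MeasurableSet {t : ℝ | (⟨t, y⟩ : ℂ) ∈ G} := meas_mk y hG
      rw [indicator_of_mem hyI]
      have h1 : ∫⁻ t : ℝ, (G ∩ {z | 1 / 2 ≤ z.re}).indicator
          (fun z => ENNReal.ofReal (w z)) ⟨t, y⟩ =
          ∫⁻ t in {t : ℝ | (⟨t, y⟩ : ℂ) ∈ G} ∩ Ici (1 / 2), ENNReal.ofReal (w ⟨t, y⟩) := by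
        rw [← lintegral_indicator (hSm.inter measurableSet_Ici)]
        congr 1
      rw [h1]
      refine tail_line c3 (fun t => w ⟨t, y⟩) _ κ η (hw.comp (cont_mk y)) (fun t => hw0 _)
        (fun s t hs hst => hanti s t y hs hst) hSm ?_ hκ ?_ (fun a ha => htail a y ha hy)
      · intro t ht
        exact geo1 (hGb ht)
      · apply Continuous.integrable_of_hasCompactSupport (hw.comp (cont_mk y))
        apply HasCompactSupport.of_support_subset_isCompact (isCompact_Icc (a := (-1 : ℝ)) (b := 1))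
        intro t ht
        by_contra hcon
        apply ht
        apply hwD
        intro hD
        apply hcon
        have hD' : |t| + |y| < 1 := hD
        rw [mem_Icc]
        exact abs_le.mp (by linarith [abs_nonneg y])
    · have h1 : ∀ t : ℝ, (G ∩ {z | 1 / 2 ≤ z.re}).indicator
          (fun z => ENNReal.ofReal (w z)) ⟨t, y⟩ = 0 := by
        intro t
        by_cases ht : (⟨t, y⟩ : ℂ) ∈ G ∩ {z | 1 / 2 ≤ z.re}
        · rw [indicator_of_mem ht]
          have : (⟨t, y⟩ : ℂ) ∉ DD := fun hD => hy (geo2 (hGb ht.1) hD)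
          rw [hwD _ this, ENNReal.ofReal_zero]
        · rw [indicator_of_notMem ht]
      simp only [h1, lintegral_zero]
      exact bot_le
  refine (lintegral_mono hline).trans ?_
  rw [lintegral_const_mul' _ _ ENNReal.ofReal_ne_top,
    lintegral_add_right _ (measurable_const.indicator measurableSet_Icc),
    lintegral_indicator measurableSet_Icc, lintegral_const, Measure.restrict_apply MeasurableSet.univ,
    univ_inter, Real.volume_Icc, ← ENNReal.ofReal_mul hη]
  apply le_of_eq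
  congr 3
  ring



/-- A planar set is smaller than the product of its (essential) projections. -/
lemma prod_bound (G : Set ℂ) (hG : MeasurableSet G) :
    volume G ≤ volume {x : ℝ | ∫⁻ t : ℝ, G.indicator (fun _ => (1 : ℝ≥0∞)) ⟨x, t⟩ ≠ 0} *
      volume {y : ℝ | ∫⁻ t : ℝ, G.indicator (fun _ => (1 : ℝ≥0∞)) ⟨t, y⟩ ≠ 0} := by
  set T1 : Set ℝ := {x : ℝ | ∫⁻ t : ℝ, G.indicator (fun _ => (1 : ℝ≥0∞)) ⟨x, t⟩ ≠ 0} with hT1
  set T2 : Set ℝ := {y : ℝ | ∫⁻ t : ℝ, G.indicator (fun _ => (1 : ℝ≥0∞)) ⟨t, y⟩ ≠ 0} with hT2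
  have hm : Measurable (G.indicator (fun _ => (1 : ℝ≥0∞))) := measurable_const.indicator hG
  have hT1m : MeasurableSet T1 := (meas_v _ hm) (measurableSet_singleton (0 : ℝ≥0∞)).compl
  have hT2m : MeasurableSet T2 := (meas_h _ hm) (measurableSet_singleton (0 : ℝ≥0∞)).compl
  have hI : MeasurableSet {z : ℂ | z.im ∈ T2} := Complex.measurable_im hT2m
  have hnull : volume (G \ {z : ℂ | z.im ∈ T2}) = 0 := by
    have hmm : MeasurableSet (G \ {z : ℂ | z.im ∈ T2}) := hG.diff hI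
    rw [← lintegral_indicator_one hmm, lint_h _ (measurable_one.indicator hmm)]
    rw [← lintegral_zero (μ := (volume : Measure ℝ))]
    congr 1
    ext y
    by_cases hy : y ∈ T2
    · have : ∀ t : ℝ, (G \ {z : ℂ | z.im ∈ T2}).indicator (1 : ℂ → ℝ≥0∞) ⟨t, y⟩ = 0 := by
        intro t
        apply indicator_of_notMem
        rintro ⟨_, h2⟩
        exact h2 hy
      simp only [this, lintegral_zero]
    · have h0 : ∫⁻ t : ℝ, G.indicator (fun _ => (1 : ℝ≥0∞)) ⟨t, y⟩ = 0 := by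
        by_contra hne
        exact hy hne
      refine le_antisymm (le_trans (lintegral_mono fun t => ?_) h0.le) bot_le
      by_cases ht : (⟨t, y⟩ : ℂ) ∈ G \ {z : ℂ | z.im ∈ T2}
      · rw [indicator_of_mem ht, indicator_of_mem ht.1]
        rfl
      · rw [indicator_of_notMem ht]
        exact bot_le
  have hmG : MeasurableSet (G ∩ {z : ℂ | z.im ∈ T2}) := hG.inter hI
  calc volume G ≤ volume (G ∩ {z : ℂ | z.im ∈ T2}) + volume (G \ {z : ℂ | z.im ∈ T2}) :=
        measure_le_inter_add_sdiff _ _ _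
    _ = volume (G ∩ {z : ℂ | z.im ∈ T2}) := by rw [hnull, add_zero]
    _ = ∫⁻ x : ℝ, ∫⁻ t : ℝ, (G ∩ {z : ℂ | z.im ∈ T2}).indicator (1 : ℂ → ℝ≥0∞) ⟨x, t⟩ := by
        rw [← lintegral_indicator_one hmG, lint_v _ (measurable_one.indicator hmG)]
    _ ≤ ∫⁻ x : ℝ, T1.indicator (fun _ => volume T2) x := by
        apply lintegral_mono
        intro x
        by_cases hx : x ∈ T1
        · simp only [indicator_of_mem hx]
          rw [← lintegral_indicator_one hT2m]
          apply lintegral_mono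
          intro t
          by_cases ht : (⟨x, t⟩ : ℂ) ∈ G ∩ {z : ℂ | z.im ∈ T2}
          · have ht2 : t ∈ T2 := ht.2
            simp only [indicator_of_mem ht, indicator_of_mem ht2]
            rfl
          · simp only [indicator_of_notMem ht]
            exact bot_le
        · have h0 : ∫⁻ t : ℝ, G.indicator (fun _ => (1 : ℝ≥0∞)) ⟨x, t⟩ = 0 := by
            by_contra hne
            exact hx hne
          simp only [indicator_of_notMem hx]
          refine le_trans (lintegral_mono fun t => ?_) h0.le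
          by_cases ht : (⟨x, t⟩ : ℂ) ∈ G ∩ {z : ℂ | z.im ∈ T2}
          · rw [indicator_of_mem ht, indicator_of_mem ht.1]
            rfl
          · rw [indicator_of_notMem ht]
            exact bot_le
    _ = volume T1 * volume T2 := by
        rw [lintegral_indicator hT1m, lintegral_const, Measure.restrict_apply MeasurableSet.univ,
          univ_inter, mul_comm]

lemma sect_pos (G : Set ℂ) (hG : MeasurableSet G) (y : ℝ)
    (h : ∫⁻ t : ℝ, G.indicator (fun _ => (1 : ℝ≥0∞)) ⟨t, y⟩ ≠ 0) :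
    0 < volume {t : ℝ | (⟨t, y⟩ : ℂ) ∈ G} := by
  have hS : MeasurableSet {t : ℝ | (⟨t, y⟩ : ℂ) ∈ G} := meas_mk y hG
  have h1 : ∫⁻ t : ℝ, G.indicator (fun _ => (1 : ℝ≥0∞)) ⟨t, y⟩ =
      volume {t : ℝ | (⟨t, y⟩ : ℂ) ∈ G} := by
    rw [← lintegral_indicator_one hS]
    congr 1
  rw [h1] at h
  exact pos_iff_ne_zero.mpr h

lemma sect_pos' (G : Set ℂ) (hG : MeasurableSet G) (x : ℝ)
    (h : ∫⁻ t : ℝ, G.indicator (fun _ => (1 : ℝ≥0∞)) ⟨x, t⟩ ≠ 0) :
    0 < volume {t : ℝ | (⟨x, t⟩ : ℂ) ∈ G} := by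
  have hS : MeasurableSet {t : ℝ | (⟨x, t⟩ : ℂ) ∈ G} := meas_mk' x hG
  have h1 : ∫⁻ t : ℝ, G.indicator (fun _ => (1 : ℝ≥0∞)) ⟨x, t⟩ =
      volume {t : ℝ | (⟨x, t⟩ : ℂ) ∈ G} := by
    rw [← lintegral_indicator_one hS]
    congr 1
  rw [h1] at h
  exact pos_iff_ne_zero.mpr h

lemma cont_mk' (x : ℝ) : Continuous (fun t : ℝ => (⟨x, t⟩ : ℂ)) := by
  have : (fun t : ℝ => (⟨x, t⟩ : ℂ)) = fun t => Complex.equivRealProdCLM.symm (x, t) := by
    ext t
    apply Complex.ext <;> simp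
  rw [this]
  exact Complex.equivRealProdCLM.symm.continuous.comp (by fun_prop)

/-- The bulk, horizontal lines. -/
lemma bulk_h (c3 : S_C3) (w : ℂ → ℝ) (G : Set ℂ) (η : ℝ) (hw : Continuous w)
    (hG : MeasurableSet G) (hGb : G ⊆ ball 1 (3 / 5)) (hη1 : η ≤ 1 / 100)
    (hlow : ∀ x : ℂ, |x.re| ≤ 1 / 2 → |x.im| ≤ 2 / 5 → 49 / 100 ≤ w x) :
    ENNReal.ofReal (49 / 100 - η) * volume {y : ℝ | ∫⁻ t : ℝ,
      (G ∩ {z | z.re < 1 / 2}).indicator (fun _ => (1 : ℝ≥0∞)) ⟨t, y⟩ ≠ 0} ≤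
      ∫⁻ y : ℝ, ev (fun t => max 0 (w ⟨t, y⟩ - η)) {t | (⟨t, y⟩ : ℂ) ∈ G} := by
  have hmre : MeasurableSet {z : ℂ | z.re < 1 / 2} :=
    measurableSet_lt Complex.measurable_re measurable_const
  have hG' : MeasurableSet (G ∩ {z | z.re < 1 / 2}) := hG.inter hmre
  have hm : Measurable ((G ∩ {z | z.re < 1 / 2}).indicator (fun _ => (1 : ℝ≥0∞))) :=
    measurable_const.indicator hG'
  set T2 : Set ℝ := {y : ℝ | ∫⁻ t : ℝ,
      (G ∩ {z | z.re < 1 / 2}).indicator (fun _ => (1 : ℝ≥0∞)) ⟨t, y⟩ ≠ 0} with hT2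
  have hT2m : MeasurableSet T2 := (meas_h _ hm) (measurableSet_singleton (0 : ℝ≥0∞)).compl
  have h1 : ENNReal.ofReal (49 / 100 - η) * volume T2 =
      ∫⁻ y : ℝ, T2.indicator (fun _ => ENNReal.ofReal (49 / 100 - η)) y := by
    rw [lintegral_indicator hT2m, lintegral_const, Measure.restrict_apply MeasurableSet.univ,
          univ_inter]
  rw [h1]
  apply lintegral_mono
  intro y
  by_cases hy : y ∈ T2
  · simp only [indicator_of_mem hy]
    have hpos := sect_pos _ hG' y hy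
    have hyb : |y| ≤ 2 / 5 := by
      have hne : {t : ℝ | (⟨t, y⟩ : ℂ) ∈ G ∩ {z | z.re < 1 / 2}}.Nonempty := by
        by_contra hcon
        rw [not_nonempty_iff_eq_empty] at hcon
        rw [hcon, measure_empty] at hpos
        exact lt_irrefl _ hpos
      obtain ⟨t, ht⟩ := hne
      have := geo3 (hGb ht.1) ht.2
      simp only at this
      linarith
    have hSm : MeasurableSet {t : ℝ | (⟨t, y⟩ : ℂ) ∈ G} := meas_mk y hG
    refine (c3 (fun t => max 0 (w ⟨t, y⟩ - η)) _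
      (continuous_const.max ((hw.comp (cont_mk y)).sub continuous_const))
      (fun t => le_max_left _ _) hSm).1
      (3 / 10) (1 / 2) (49 / 100 - η) (by norm_num) (by linarith) ?_ ?_ ?_
    · intro t ht
      have := hlow ⟨t, y⟩ (by rw [abs_le]; constructor <;> simp only <;> linarith [ht.1, ht.2]) hyb
      exact le_max_of_le_right (by linarith)
    · refine lt_of_lt_of_le hpos (measure_mono ?_)
      intro t ht
      refine ⟨ht.1, ?_, ht.2⟩
      have := geo1 (hGb ht.1)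
      simp only at this
      linarith
    · have hsub : Ioo (3 / 10 : ℝ) (2 / 5) ⊆ Ioo (3 / 10) (1 / 2) \ {t : ℝ | (⟨t, y⟩ : ℂ) ∈ G} := by
        intro s hs
        refine ⟨⟨hs.1, by linarith [hs.2]⟩, fun hsS => ?_⟩
        have := geo1 (hGb hsS)
        simp only at this
        linarith [hs.2]
      refine lt_of_lt_of_le ?_ (measure_mono hsub)
      rw [Real.volume_Ioo]
      norm_num
  · simp only [indicator_of_notMem hy]
    exact bot_le

/-- The bulk, vertical lines. -/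
lemma bulk_v (c3 : S_C3) (w : ℂ → ℝ) (G : Set ℂ) (η : ℝ) (hw : Continuous w)
    (hG : MeasurableSet G) (hGb : G ⊆ ball 1 (3 / 5)) (hη1 : η ≤ 1 / 100)
    (hlow : ∀ x : ℂ, |x.re| ≤ 1 / 2 → |x.im| ≤ 2 / 5 → 49 / 100 ≤ w x) :
    ENNReal.ofReal (2 * (49 / 100 - η)) * volume {x : ℝ | ∫⁻ t : ℝ,
      (G ∩ {z | z.re < 1 / 2}).indicator (fun _ => (1 : ℝ≥0∞)) ⟨x, t⟩ ≠ 0} ≤
      ∫⁻ x : ℝ, ev (fun t => max 0 (w ⟨x, t⟩ - η)) {t | (⟨x, t⟩ : ℂ) ∈ G} := by
  have hmre : MeasurableSet {z : ℂ | z.re < 1 / 2} :=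
    measurableSet_lt Complex.measurable_re measurable_const
  have hG' : MeasurableSet (G ∩ {z | z.re < 1 / 2}) := hG.inter hmre
  have hm : Measurable ((G ∩ {z | z.re < 1 / 2}).indicator (fun _ => (1 : ℝ≥0∞))) :=
    measurable_const.indicator hG'
  set T1 : Set ℝ := {x : ℝ | ∫⁻ t : ℝ,
      (G ∩ {z | z.re < 1 / 2}).indicator (fun _ => (1 : ℝ≥0∞)) ⟨x, t⟩ ≠ 0} with hT1
  have hT1m : MeasurableSet T1 := (meas_v _ hm) (measurableSet_singleton (0 : ℝ≥0∞)).compl
  have h1 : ENNReal.ofReal (2 * (49 / 100 - η)) * volume T1 =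
      ∫⁻ y : ℝ, T1.indicator (fun _ => ENNReal.ofReal (2 * (49 / 100 - η))) y := by
    rw [lintegral_indicator hT1m, lintegral_const, Measure.restrict_apply MeasurableSet.univ,
          univ_inter]
  rw [h1]
  apply lintegral_mono
  intro x
  by_cases hx : x ∈ T1
  · simp only [indicator_of_mem hx]
    have hpos := sect_pos' _ hG' x hx
    have hxb : 2 / 5 < x ∧ x < 1 / 2 := by
      have hne : {t : ℝ | (⟨x, t⟩ : ℂ) ∈ G ∩ {z | z.re < 1 / 2}}.Nonempty := by
        by_contra hcon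
        rw [not_nonempty_iff_eq_empty] at hcon
        rw [hcon, measure_empty] at hpos
        exact lt_irrefl _ hpos
      obtain ⟨t, ht⟩ := hne
      exact ⟨geo1 (hGb ht.1), ht.2⟩
    have hSm : MeasurableSet {t : ℝ | (⟨x, t⟩ : ℂ) ∈ G} := meas_mk' x hG
    have hSb : ∀ t : ℝ, (⟨x, t⟩ : ℂ) ∈ G → |t| < 17 / 50 := fun t ht => geo3 (hGb ht) hxb.2
    refine (c3 (fun t => max 0 (w ⟨x, t⟩ - η)) _
      (continuous_const.max ((hw.comp (cont_mk' x)).sub continuous_const))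
      (fun t => le_max_left _ _) hSm).2.2
      (-(2 / 5)) (-(17 / 50)) (17 / 50) (2 / 5) (49 / 100 - η) (by norm_num) (by norm_num)
      (by norm_num) (by linarith) ?_ ?_ ?_ ?_
    · intro t ht
      have := hlow ⟨x, t⟩ (by rw [abs_le]; constructor <;> simp only <;> linarith [hxb.1, hxb.2])
        (by rw [abs_le]; constructor <;> simp only <;> linarith [ht.1, ht.2])
      exact le_max_of_le_right (by linarith)
    · have hsub : Ioo (-(2 / 5) : ℝ) (-(17 / 50)) ⊆
          Ioo (-(2 / 5)) (-(17 / 50)) \ {t : ℝ | (⟨x, t⟩ : ℂ) ∈ G} := by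
        intro s hs
        refine ⟨hs, fun hsS => ?_⟩
        have := (abs_lt.mp (hSb s hsS)).1
        linarith [hs.2]
      refine lt_of_lt_of_le ?_ (measure_mono hsub)
      rw [Real.volume_Ioo]
      norm_num
    · refine lt_of_lt_of_le hpos (measure_mono ?_)
      intro t ht
      refine ⟨ht.1, ?_⟩
      rw [mem_Ioo]
      exact abs_lt.mp (hSb t ht.1)
    · have hsub : Ioo (17 / 50 : ℝ) (2 / 5) ⊆
          Ioo (17 / 50) (2 / 5) \ {t : ℝ | (⟨x, t⟩ : ℂ) ∈ G} := by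
        intro s hs
        refine ⟨hs, fun hsS => ?_⟩
        have := (abs_lt.mp (hSb s hsS)).2
        linarith [hs.1]
      refine lt_of_lt_of_le ?_ (measure_mono hsub)
      rw [Real.volume_Ioo]
      norm_num
  · simp only [indicator_of_notMem hx]
    exact bot_le



/-- The estimate for every `η`. -/
lemma main_eta (c2 : S_C2) (c3 : S_C3) (w : ℂ → ℝ) (G : Set ℂ) (κ η P : ℝ) (hw : Continuous w)
    (hw0 : ∀ x, 0 ≤ w x) (hw1 : ∀ x, w x ≤ 1) (hwD : {x | 0 < w x} = DD)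
    (hanti : ∀ a a' b : ℝ, 0 ≤ a → a ≤ a' → w ⟨a', b⟩ ≤ w ⟨a, b⟩)
    (hG : MeasurableSet G) (hGb : G ⊆ ball 1 (3 / 5)) (hκ : 0 ≤ κ) (hη : 0 < η)
    (hη1 : η ≤ 1 / 100) (hP : 0 ≤ P) (hPW : PW w G P)
    (hlow : ∀ x : ℂ, |x.re| ≤ 1 / 2 → |x.im| ≤ 2 / 5 → 49 / 100 ≤ w x)
    (htail : ∀ a b : ℝ, 1 / 2 ≤ a → |b| ≤ 9 / 20 → ∫ t in Ioi a, w ⟨t, b⟩ ≤ κ * w ⟨a, b⟩) :
    mu w G ≤ 11 / 10 * P ^ 2 + κ * (√2 * P + 9 / 10 * η) := by
  have hwD' : ∀ x, x ∉ DD → w x = 0 := by
    intro x hx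
    rw [← hwD] at hx
    simp only [mem_ofPred_eq, not_lt] at hx
    exact le_antisymm hx (hw0 x)
  -- the cut off weight
  have hu : Continuous fun x => max 0 (w x - η) := by fun_prop
  have hclosed : IsClosed {x | η ≤ w x} := isClosed_le continuous_const hw
  have hsupp : Function.support (fun x => max 0 (w x - η)) ⊆ {x | η ≤ w x} := by
    intro x hx
    by_contra hcon
    apply hx
    have : w x < η := not_le.mp hcon
    exact max_eq_left (by linarith)
  have hsub : {x | η ≤ w x} ⊆ {x | 0 < w x} := fun x hx => lt_of_lt_of_le hη hx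
  have hcomp : IsCompact {x | η ≤ w x} := by
    apply Metric.isCompact_of_isClosed_isBounded hclosed
    apply (isBounded_closedBall (x := (0 : ℂ)) (r := 1)).subset
    intro x hx
    have hD : x ∈ DD := by
      rw [← hwD]
      exact hsub hx
    have hD' : |x.re| + |x.im| < 1 := hD
    rw [mem_closedBall, dist_zero_right]
    exact (Complex.norm_le_abs_re_add_abs_im x).trans hD'.le
  have hE := c2 w (fun x => max 0 (w x - η)) G P hw hw0 hu
    (HasCompactSupport.of_support_subset_isCompact hcomp hsupp)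
    ((closure_minimal hsupp hclosed).trans hsub) (fun x => le_max_left _ _)
    (fun x => max_le (hw0 x) (by linarith)) hG hPW
  set E1 := ∫⁻ y : ℝ, ev (fun t => max 0 (w ⟨t, y⟩ - η)) {t | (⟨t, y⟩ : ℂ) ∈ G} with hE1
  set E2 := ∫⁻ x : ℝ, ev (fun t => max 0 (w ⟨x, t⟩ - η)) {t | (⟨x, t⟩ : ℂ) ∈ G} with hE2
  have hfin1 : E1 ≠ ∞ := ne_top_of_le_ne_top ENNReal.ofReal_ne_top (le_self_add.trans hE)
  have hfin2 : E2 ≠ ∞ := ne_top_of_le_ne_top ENNReal.ofReal_ne_top (le_add_self.trans hE)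
  have hEr : E1.toReal + E2.toReal ≤ √2 * P := by
    rw [← ENNReal.toReal_add hfin1 hfin2]
    exact ENNReal.toReal_le_of_le_ofReal (by positivity) hE
  -- the three estimates
  have ht := tail_plane c3 w G κ η hw hw0 hwD' hanti hG hGb hκ hη.le htail
  have hb1 := bulk_h c3 w G η hw hG hGb hη1 hlow
  have hb2 := bulk_v c3 w G η hw hG hGb hη1 hlow
  rw [← hE1] at ht hb1
  rw [← hE2] at hb2
  have hmre : MeasurableSet {z : ℂ | z.re < 1 / 2} :=
    measurableSet_lt Complex.measurable_re measurable_const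
  have hG' : MeasurableSet (G ∩ {z | z.re < 1 / 2}) := hG.inter hmre
  have hpb := prod_bound _ hG'
  set V1 := volume {x : ℝ | ∫⁻ t : ℝ,
      (G ∩ {z | z.re < 1 / 2}).indicator (fun _ => (1 : ℝ≥0∞)) ⟨x, t⟩ ≠ 0} with hV1
  set V2 := volume {y : ℝ | ∫⁻ t : ℝ,
      (G ∩ {z | z.re < 1 / 2}).indicator (fun _ => (1 : ℝ≥0∞)) ⟨t, y⟩ ≠ 0} with hV2
  have hκ' : 0 < 49 / 100 - η := by linarith
  have hV2fin : V2 ≠ ∞ := by
    intro h
    rw [h, ENNReal.mul_top (by simpa using hκ')] at hb1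
    exact hfin1 (top_le_iff.mp hb1)
  have hV1fin : V1 ≠ ∞ := by
    intro h
    rw [h, ENNReal.mul_top (by simpa using hκ')] at hb2
    exact hfin2 (top_le_iff.mp hb2)
  have hb1r : (49 / 100 - η) * V2.toReal ≤ E1.toReal := by
    have := ENNReal.toReal_mono hfin1 hb1
    rwa [ENNReal.toReal_mul, ENNReal.toReal_ofReal hκ'.le] at this
  have hb2r : (2 * (49 / 100 - η)) * V1.toReal ≤ E2.toReal := by
    have := ENNReal.toReal_mono hfin2 hb2
    rwa [ENNReal.toReal_mul, ENNReal.toReal_ofReal (by linarith)] at this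
  have hvol : volume.real (G ∩ {z | z.re < 1 / 2}) ≤ V1.toReal * V2.toReal := by
    rw [← ENNReal.toReal_mul]
    exact ENNReal.toReal_mono (ENNReal.mul_ne_top hV1fin hV2fin) hpb
  have hvolfin : volume (G ∩ {z | z.re < 1 / 2}) ≠ ∞ :=
    ne_top_of_le_ne_top (ENNReal.mul_ne_top hV1fin hV2fin) hpb
  -- the total mass
  have hsplit : ∫⁻ z in G, ENNReal.ofReal (w z) ≤
      volume (G ∩ {z | z.re < 1 / 2}) + ENNReal.ofReal κ * (E1 + ENNReal.ofReal (9 / 10 * η)) := by
    have hcov : G ⊆ (G ∩ {z | z.re < 1 / 2}) ∪ (G ∩ {z | 1 / 2 ≤ z.re}) := by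
      intro z hz
      rcases lt_or_ge z.re (1 / 2) with h | h
      · exact Or.inl ⟨hz, h⟩
      · exact Or.inr ⟨hz, h⟩
    refine (lintegral_mono_set hcov).trans ((lintegral_union_le _ _ _).trans ?_)
    refine add_le_add ?_ ht
    calc ∫⁻ z in G ∩ {z | z.re < 1 / 2}, ENNReal.ofReal (w z)
        ≤ ∫⁻ z in G ∩ {z | z.re < 1 / 2}, 1 := by
          apply lintegral_mono
          intro z
          simpa using hw1 z
      _ = _ := by rw [lintegral_const, Measure.restrict_apply MeasurableSet.univ, univ_inter,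
                    one_mul]
  have hmu : mu w G = (∫⁻ z in G, ENNReal.ofReal (w z)).toReal := by
    rw [mu, integral_eq_lintegral_of_nonneg_ae (Eventually.of_forall fun z => hw0 z)
      hw.aestronglyMeasurable]
  have hfinR : volume (G ∩ {z | z.re < 1 / 2}) +
      ENNReal.ofReal κ * (E1 + ENNReal.ofReal (9 / 10 * η)) ≠ ∞ :=
    ENNReal.add_ne_top.mpr ⟨hvolfin, ENNReal.mul_ne_top ENNReal.ofReal_ne_top
      (ENNReal.add_ne_top.mpr ⟨hfin1, ENNReal.ofReal_ne_top⟩)⟩
  have hmu2 : mu w G ≤ V1.toReal * V2.toReal + κ * (E1.toReal + 9 / 10 * η) := by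
    rw [hmu]
    refine (ENNReal.toReal_mono hfinR hsplit).trans ?_
    rw [ENNReal.toReal_add hvolfin (ENNReal.mul_ne_top ENNReal.ofReal_ne_top
      (ENNReal.add_ne_top.mpr ⟨hfin1, ENNReal.ofReal_ne_top⟩)), ENNReal.toReal_mul,
      ENNReal.toReal_ofReal hκ, ENNReal.toReal_add hfin1 ENNReal.ofReal_ne_top,
      ENNReal.toReal_ofReal (by positivity)]
    gcongr
    exact hvol
  -- arithmetic
  have he1 : 0 ≤ E1.toReal := ENNReal.toReal_nonneg
  have he2 : 0 ≤ E2.toReal := ENNReal.toReal_nonneg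
  have hv1 : 0 ≤ V1.toReal := ENNReal.toReal_nonneg
  have hv2 : 0 ≤ V2.toReal := ENNReal.toReal_nonneg
  have hprod : V1.toReal * V2.toReal ≤ 11 / 10 * P ^ 2 := by
    set a := V1.toReal
    set b := V2.toReal
    set e := E1.toReal
    set f := E2.toReal
    have h48 : (48 / 100 : ℝ) ≤ 49 / 100 - η := by linarith
    have h1 : 48 / 100 * b ≤ e := le_trans (mul_le_mul_of_nonneg_right h48 hv2) hb1r
    have h2 : 96 / 100 * a ≤ f := by
      refine le_trans (mul_le_mul_of_nonneg_right ?_ hv1) hb2r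
      linarith
    have h3 : (48 / 100 * b) * (96 / 100 * a) ≤ e * f :=
      mul_le_mul h1 h2 (by positivity) he1
    have h4 : (e + f) ^ 2 ≤ 2 * P ^ 2 := by
      have h5 : (e + f) ^ 2 ≤ (√2 * P) ^ 2 := by
        apply pow_le_pow_left₀ (by positivity) hEr
      rwa [mul_pow, Real.sq_sqrt (by norm_num)] at h5
    nlinarith [sq_nonneg (e - f)]
  have hlast : κ * (E1.toReal + 9 / 10 * η) ≤ κ * (√2 * P + 9 / 10 * η) := by
    apply mul_le_mul_of_nonneg_left _ hκ
    linarith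
  linarith

/-- **C5.** -/
theorem c5 (c0 : S_C0) (c1 : S_C1) (c2 : S_C2) (c3 : S_C3) : S_C5 := by
  obtain ⟨m₁, hm₁⟩ := c1.2
  refine ⟨max 1 m₁, ?_⟩
  intro m hm G P hG hGb hP hPW
  have hm1 : 1 ≤ m := (le_max_left _ _).trans hm
  obtain ⟨-, hw, hw0, hw1, hwD, -, -, -, -, -, hanti, -⟩ := c0 m hm1
  obtain ⟨hlow, -, htail⟩ := hm₁ m ((le_max_right _ _).trans hm)
  have hsm : (0 : ℝ) < √m := by
    apply Real.sqrt_pos.mpr
    exact_mod_cast hm1
  have hκ : (0 : ℝ) ≤ 2 / 5 / √m := by positivity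
  have key : ∀ η : ℝ, 0 < η → η ≤ 1 / 100 →
      mu (wt m) G ≤ 11 / 10 * P ^ 2 + 2 / 5 / √m * (√2 * P + 9 / 10 * η) :=
    fun η h1 h2 => main_eta c2 c3 (wt m) G (2 / 5 / √m) η P hw hw0 hw1 hwD hanti hG hGb hκ h1 h2
      hP hPW hlow htail
  have hlim : Tendsto (fun η : ℝ => 11 / 10 * P ^ 2 + 2 / 5 / √m * (√2 * P + 9 / 10 * η))
      (𝓝[>] 0) (𝓝 (11 / 10 * P ^ 2 + 2 / 5 / √m * (√2 * P + 9 / 10 * 0))) := by
    have hc : Continuous fun η : ℝ => 11 / 10 * P ^ 2 + 2 / 5 / √m * (√2 * P + 9 / 10 * η) := by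
      fun_prop
    exact (hc.tendsto 0).mono_left nhdsWithin_le_nhds
  have h1 : mu (wt m) G ≤ 11 / 10 * P ^ 2 + 2 / 5 / √m * (√2 * P + 9 / 10 * 0) := by
    refine ge_of_tendsto hlim ?_
    filter_upwards [Ioo_mem_nhdsGT (show (0 : ℝ) < 1 / 100 by norm_num)] with η hη
    exact key η hη.1 hη.2.le
  have h2 : √2 ≤ 5 / 2 := by
    rw [Real.sqrt_le_left (by norm_num)]
    norm_num
  have h3 : 2 / 5 / √m * (√2 * P + 9 / 10 * 0) ≤ P / √m := by
    have : 2 / 5 / √m * (√2 * P + 9 / 10 * 0) = (2 / 5 * √2) * P / √m := by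
      field_simp
      ring
    rw [this]
    gcongr
    nlinarith
  linarith

end Pool.Agent.TH616.HU
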